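import Pool.Agent.helper38.OV.Spec

/-! # Project OV: row TYG (typical pairs), as `OP.TYP` -/

set_option autoImplicit false

namespace Pool.Agent.OV

open Finset Real Pool.Agent.AT Pool.Agent.helper85.FC Pool.Agent.OM

lemma TYG_card (M N ρ : ℕ) (hρ : ρ < M) : ((range (M * N)).filter fun x => x % M = ρ).card = N := by
  have h : (range (M * N)).filter (fun x => x % M = ρ) = (range N).image fun k => ρ + M * k := by
    ext x
    simp only [Finset.mem_filter, Finset.mem_range, Finset.mem_image]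
    constructor
    · rintro ⟨h1, h2⟩
      refine ⟨x / M, ?_, ?_⟩
      · exact Nat.div_lt_of_lt_mul h1
      · rw [← h2]
        exact Nat.mod_add_div x M
    · rintro ⟨k, hk, rfl⟩
      refine ⟨?_, ?_⟩
      · calc ρ + M * k < M + M * k := by omega
          _ = M * (k + 1) := by ring
          _ ≤ M * N := Nat.mul_le_mul_left _ hk
      · rw [Nat.add_mul_mod_self_left, Nat.mod_eq_of_lt hρ]
  rw [h, Finset.card_image_of_injective _ ?_, Finset.card_range]
  intro k k' hk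
  have hM : 0 < M := by omega
  simp only at hk
  exact Nat.eq_of_mul_eq_mul_left hM (by omega)

lemma TYG_key (M N : ℕ) (η : ℝ) (hM : 1 ≤ M) (c g : ℕ → ℝ) (hc : ∀ x, 0 ≤ c x) (hcM : ∀ x, c x = c (x % M))
    (hg : ∀ ρ < M, η * N ≤ ∑ x ∈ range (M * N) with x % M = ρ, g x) :
    η * ∑ x ∈ range (M * N), c x ≤ ∑ x ∈ range (M * N), c x * g x := by
  have hmap : ∀ x ∈ range (M * N), x % M ∈ range M := fun x _ =>
    Finset.mem_range.2 (Nat.mod_lt _ (by omega))
  rw [← Finset.sum_fiberwise_of_maps_to hmap (fun x => c x * g x),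
    ← Finset.sum_fiberwise_of_maps_to hmap c, Finset.mul_sum]
  refine Finset.sum_le_sum fun ρ hρ => ?_
  have hρ' := Finset.mem_range.1 hρ
  have h1 : ∑ x ∈ range (M * N) with x % M = ρ, c x = N * c ρ := by
    have : ∀ x ∈ (range (M * N)).filter (fun x => x % M = ρ), c x = c ρ := by
      intro x hx
      rw [hcM x, (Finset.mem_filter.1 hx).2]
    rw [Finset.sum_congr rfl this, Finset.sum_const, TYG_card M N ρ hρ', nsmul_eq_mul]
  have h2 : ∑ x ∈ range (M * N) with x % M = ρ, c x * g x = c ρ * ∑ x ∈ range (M * N) with x % M = ρ, g x := by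
    rw [Finset.mul_sum]
    refine Finset.sum_congr rfl fun x hx => ?_
    rw [hcM x, (Finset.mem_filter.1 hx).2]
  rw [h1, h2]
  calc η * (N * c ρ) = c ρ * (η * N) := by ring
    _ ≤ c ρ * ∑ x ∈ range (M * N) with x % M = ρ, g x := mul_le_mul_of_nonneg_left (hg ρ hρ') (hc ρ)

lemma TYG_sq (L : ℕ) (S : ℕ → ℝ) : ∑ i ∈ range L, S i * ∑ j ∈ range L, (if j < i then S j else 0) =
    ((∑ i ∈ range L, S i) ^ 2 - ∑ i ∈ range L, S i ^ 2) / 2 := by
  have h1 : (∑ i ∈ range L, S i) ^ 2 = ∑ i ∈ range L, ∑ j ∈ range L, S i * S j := by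
    rw [sq, Finset.sum_mul_sum]
  have h2 : ∀ i ∈ range L, ∑ j ∈ range L, S i * S j =
      S i * ∑ j ∈ range L, (if j < i then S j else 0) + (S i ^ 2 + ∑ j ∈ range L, (if i < j then S i * S j else 0)) := by
    intro i hi
    have h3 : S i ^ 2 = ∑ j ∈ range L, (if j = i then S i * S j else 0) := by
      rw [Finset.sum_ite_eq' (range L) i, if_pos hi, sq]
    rw [h3, Finset.mul_sum, ← Finset.sum_add_distrib, ← Finset.sum_add_distrib]
    refine Finset.sum_congr rfl fun j _ => ?_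
    rcases lt_trichotomy j i with h | h | h
    · rw [if_pos h, if_neg h.ne, if_neg (by omega)]
      ring
    · subst h
      simp
    · rw [if_neg (by omega), if_neg (by omega), if_pos h]
      ring
  have h4 : ∑ i ∈ range L, ∑ j ∈ range L, (if i < j then S i * S j else 0) =
      ∑ i ∈ range L, S i * ∑ j ∈ range L, (if j < i then S j else 0) := by
    rw [Finset.sum_comm]
    refine Finset.sum_congr rfl fun i _ => ?_
    rw [Finset.mul_sum]
    refine Finset.sum_congr rfl fun j _ => ?_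
    split_ifs with h
    · ring
    · ring
  rw [h1, Finset.sum_congr rfl h2, Finset.sum_add_distrib, Finset.sum_add_distrib, h4]
  ring

/-- the sum over the pairs of levels, collected by the second coordinate -/
lemma TYG_lev (S : Finset ℕ) (L : ℕ) (T : ℕ × ℕ → ℝ) :
    ∑ u ∈ S ×ˢ range L, ∑ u' ∈ S ×ˢ range L, (if u'.2 < u.2 then T u * T u' else 0) =
      ∑ i ∈ range L, (∑ s ∈ S, T (s, i)) * ∑ j ∈ range L, (if j < i then ∑ s ∈ S, T (s, j) else 0) := by
  rw [Finset.sum_product_right]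
  refine Finset.sum_congr rfl fun i _ => ?_
  rw [Finset.sum_mul]
  refine Finset.sum_congr rfl fun s _ => ?_
  rw [Finset.sum_product_right, Finset.mul_sum]
  refine Finset.sum_congr rfl fun j _ => ?_
  split_ifs with h
  · rw [Finset.mul_sum]
  · simp

/-- the number of the exceptional pairs -/
lemma TYG_exc (S : Finset ℕ) (L : ℕ) (E : Finset (ℕ × ℕ)) :
    ∑ u ∈ S ×ˢ range L, ∑ u' ∈ S ×ˢ range L, (if (u.1, u'.1) ∈ E then (1 : ℝ) else 0) ≤ (L : ℝ) ^ 2 * #E := by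
  have h1 : ∑ u ∈ S ×ˢ range L, ∑ u' ∈ S ×ˢ range L, (if (u.1, u'.1) ∈ E then (1 : ℝ) else 0) =
      (L : ℝ) ^ 2 * ∑ s ∈ S, ∑ s' ∈ S, (if (s, s') ∈ E then (1 : ℝ) else 0) := by
    rw [Finset.sum_product_right]
    have : ∀ i ∈ range L, ∑ s ∈ S, ∑ u' ∈ S ×ˢ range L, (if (s, u'.1) ∈ E then (1 : ℝ) else 0) =
        L * ∑ s ∈ S, ∑ s' ∈ S, (if (s, s') ∈ E then (1 : ℝ) else 0) := by
      intro i _
      rw [Finset.mul_sum]
      refine Finset.sum_congr rfl fun s _ => ?_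
      have h3 : ∑ u' ∈ S ×ˢ range L, (if (s, u'.1) ∈ E then (1 : ℝ) else 0) =
          ∑ j ∈ range L, ∑ s' ∈ S, (if (s, s') ∈ E then (1 : ℝ) else 0) := Finset.sum_product_right _ _ _
      rw [h3, Finset.sum_const, Finset.card_range, nsmul_eq_mul]
    rw [Finset.sum_congr rfl this, Finset.sum_const, Finset.card_range, nsmul_eq_mul]
    ring
  have h2 : ∑ s ∈ S, ∑ s' ∈ S, (if (s, s') ∈ E then (1 : ℝ) else 0) ≤ #E := by
    rw [← Finset.sum_product' (f := fun s s' => if (s, s') ∈ E then (1 : ℝ) else 0), Finset.sum_boole]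
    have : #{x ∈ S ×ˢ S | (x.1, x.2) ∈ E} ≤ #E := by
      apply Finset.card_le_card
      intro x hx
      exact (Finset.mem_filter.1 hx).2
    exact_mod_cast this
  rw [h1]
  exact mul_le_mul_of_nonneg_left h2 (by positivity)

lemma TYG_alg (l s w : ℝ) (hl : l ≠ 0) : 1 / l * (s * (l * w)) ^ 2 = l * (s * w) ^ 2 := by
  field_simp

theorem TYG : TYG_stmt := by
  intro L M N η δ S E hL hM hη0 hη1 hE f hf0 hf c hc hcM
  set Y := M * N with hY
  let T : ℕ × ℕ → ℝ := fun u => ∑ x ∈ range Y, c (u, x)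
  have hT0 : ∀ u, 0 ≤ T u := fun u => Finset.sum_nonneg fun x _ => (hc _).1
  have hTY : ∀ u, T u ≤ (M : ℝ) * N := by
    intro u
    calc T u ≤ ∑ _x ∈ range Y, (1 : ℝ) := Finset.sum_le_sum fun x _ => (hc _).2
      _ = (M : ℝ) * N := by rw [Finset.sum_const, Finset.card_range, hY]; ring
  have hsum : ∑ p ∈ VG S L Y, c p = ∑ i ∈ range L, ∑ s ∈ S, T (s, i) := by
    unfold VG
    rw [Finset.sum_product, Finset.sum_product_right]
  have hR : ∑ u ∈ S ×ˢ range L, ∑ u' ∈ S ×ˢ range L,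
      (η * (if u'.2 < u.2 then T u * T u' else 0) - η * ((M : ℝ) * N) ^ 2 * (if (u.1, u'.1) ∈ E then 1 else 0)) ≤
      ∑ p ∈ VG S L Y, ∑ p' ∈ VG S L Y with p'.1.2 < p.1.2, c p * c p' * f p p' := by
    conv_rhs => rw [show VG S L Y = (S ×ˢ range L) ×ˢ range Y from rfl, Finset.sum_product]
    refine Finset.sum_le_sum fun u hu => ?_
    have e1 : ∑ x ∈ range Y, ∑ p' ∈ ((S ×ˢ range L) ×ˢ range Y).filter (fun p' => p'.1.2 < ((u, x) : (ℕ × ℕ) × ℕ).1.2),
          c (u, x) * c p' * f (u, x) p' =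
        ∑ u' ∈ S ×ˢ range L, ∑ y ∈ range Y,
          (if u'.2 < u.2 then c (u', y) * ∑ x ∈ range Y, c (u, x) * f (u, x) (u', y) else 0) := by
      calc ∑ x ∈ range Y, ∑ p' ∈ ((S ×ˢ range L) ×ˢ range Y).filter (fun p' => p'.1.2 < ((u, x) : (ℕ × ℕ) × ℕ).1.2),
            c (u, x) * c p' * f (u, x) p'
          = ∑ x ∈ range Y, ∑ p' ∈ (S ×ˢ range L) ×ˢ range Y,
              (if p'.1.2 < u.2 then c (u, x) * c p' * f (u, x) p' else 0) := by
            refine Finset.sum_congr rfl fun x _ => ?_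
            rw [Finset.sum_filter]
        _ = ∑ p' ∈ (S ×ˢ range L) ×ˢ range Y, ∑ x ∈ range Y,
              (if p'.1.2 < u.2 then c (u, x) * c p' * f (u, x) p' else 0) :=
            Finset.sum_comm
        _ = ∑ u' ∈ S ×ˢ range L, ∑ y ∈ range Y, ∑ x ∈ range Y,
              (if u'.2 < u.2 then c (u, x) * c (u', y) * f (u, x) (u', y) else 0) := by
            rw [Finset.sum_product]
        _ = _ := by
            refine Finset.sum_congr rfl fun u' _ => Finset.sum_congr rfl fun y _ => ?_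
            split_ifs with h
            · rw [Finset.mul_sum]
              refine Finset.sum_congr rfl fun x _ => ?_
              ring
            · simp
    rw [e1]
    refine Finset.sum_le_sum fun u' hu' => ?_
    obtain ⟨hu1, hu2⟩ := Finset.mem_product.1 hu
    obtain ⟨hu1', hu2'⟩ := Finset.mem_product.1 hu'
    have hu2r := Finset.mem_range.1 hu2
    have hMN : (0 : ℝ) ≤ (M : ℝ) * N := by positivity
    by_cases h : u'.2 < u.2
    · have e3 : ∑ y ∈ range Y,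
          (if u'.2 < u.2 then c (u', y) * ∑ x ∈ range Y, c (u, x) * f (u, x) (u', y) else 0) =
          ∑ y ∈ range Y, c (u', y) * ∑ x ∈ range Y, c (u, x) * f (u, x) (u', y) :=
        Finset.sum_congr rfl fun y _ => if_pos h
      rw [e3, if_pos h]
      by_cases hEE : (u.1, u'.1) ∈ E
      · rw [if_pos hEE, mul_one]
        have h1 : T u * T u' ≤ ((M : ℝ) * N) ^ 2 := by
          rw [sq]
          exact mul_le_mul (hTY u) (hTY u') (hT0 u') hMN
        have h2 : η * (T u * T u') ≤ η * ((M : ℝ) * N) ^ 2 := mul_le_mul_of_nonneg_left h1 hη0.le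
        have h3 : 0 ≤ ∑ y ∈ range Y, c (u', y) * ∑ x ∈ range Y, c (u, x) * f (u, x) (u', y) := by
          refine Finset.sum_nonneg fun y hy => mul_nonneg (hc _).1 (Finset.sum_nonneg fun x hx =>
            mul_nonneg (hc _).1 (hf0 (u, x) ?_ (u', y) ?_ h))
          · exact Finset.mem_product.2 ⟨hu, hx⟩
          · exact Finset.mem_product.2 ⟨hu', hy⟩
        linarith
      · rw [if_neg hEE, mul_zero, sub_zero]
        have e4 : η * (T u * T u') = ∑ y ∈ range Y, c (u', y) * (η * T u) := by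
          rw [← Finset.sum_mul]
          ring
        rw [e4]
        refine Finset.sum_le_sum fun y hy => mul_le_mul_of_nonneg_left ?_ (hc _).1
        exact TYG_key M N η hM (fun x => c (u, x)) (fun x => f (u, x) (u', y)) (fun x => (hc _).1)
          (fun x => hcM u x) (fun ρ hρ => hf u.1 hu1 u'.1 hu1' hEE u.2 hu2r u'.2 h ρ hρ y (Finset.mem_range.1 hy))
    · have e3 : ∑ y ∈ range Y,
          (if u'.2 < u.2 then c (u', y) * ∑ x ∈ range Y, c (u, x) * f (u, x) (u', y) else 0) = 0 := by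
        refine Finset.sum_eq_zero fun y _ => if_neg h
      rw [e3, if_neg h, mul_zero, zero_sub]
      split_ifs
      · have : 0 ≤ η * ((M : ℝ) * N) ^ 2 * 1 := by positivity
        linarith
      · simp
  refine le_trans ?_ hR
  have hsplit : ∑ u ∈ S ×ˢ range L, ∑ u' ∈ S ×ˢ range L,
      (η * (if u'.2 < u.2 then T u * T u' else 0) - η * ((M : ℝ) * N) ^ 2 * (if (u.1, u'.1) ∈ E then 1 else 0)) =
      η * (∑ u ∈ S ×ˢ range L, ∑ u' ∈ S ×ˢ range L, (if u'.2 < u.2 then T u * T u' else 0)) -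
      η * ((M : ℝ) * N) ^ 2 * (∑ u ∈ S ×ˢ range L, ∑ u' ∈ S ×ˢ range L, (if (u.1, u'.1) ∈ E then (1 : ℝ) else 0)) := by
    rw [Finset.mul_sum, Finset.mul_sum, ← Finset.sum_sub_distrib]
    refine Finset.sum_congr rfl fun u _ => ?_
    rw [Finset.mul_sum, Finset.mul_sum, ← Finset.sum_sub_distrib]
  rw [hsplit, TYG_lev, TYG_sq, hsum]
  have hexc := TYG_exc S L E
  set A : ℕ → ℝ := fun i => ∑ s ∈ S, T (s, i) with hA
  have hA0 : ∀ i, 0 ≤ A i := fun i => Finset.sum_nonneg fun s _ => hT0 _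
  have hAY : ∀ i, A i ≤ (#S : ℝ) * ((M : ℝ) * N) := by
    intro i
    calc A i ≤ ∑ _s ∈ S, ((M : ℝ) * N) := Finset.sum_le_sum fun s _ => hTY _
      _ = (#S : ℝ) * ((M : ℝ) * N) := by rw [Finset.sum_const, nsmul_eq_mul]
  have hsq : ∑ i ∈ range L, A i ^ 2 ≤ L * ((#S : ℝ) * ((M : ℝ) * N)) ^ 2 := by
    calc ∑ i ∈ range L, A i ^ 2 ≤ ∑ _i ∈ range L, ((#S : ℝ) * ((M : ℝ) * N)) ^ 2 :=
          Finset.sum_le_sum fun i _ => pow_le_pow_left₀ (hA0 i) (hAY i) 2
      _ = L * ((#S : ℝ) * ((M : ℝ) * N)) ^ 2 := by rw [Finset.sum_const, Finset.card_range, nsmul_eq_mul]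
  have hL0 : (0 : ℝ) < L := by exact_mod_cast hL
  have h1 : 1 / (L : ℝ) * ((#S : ℝ) * (L * ((M : ℝ) * N))) ^ 2 = L * ((#S : ℝ) * ((M : ℝ) * N)) ^ 2 :=
    TYG_alg _ _ _ hL0.ne'
  have h2 : (∑ u ∈ S ×ˢ range L, ∑ u' ∈ S ×ˢ range L, (if (u.1, u'.1) ∈ E then (1 : ℝ) else 0)) ≤
      (L : ℝ) ^ 2 * (δ * (#S : ℝ) ^ 2) :=
    hexc.trans (mul_le_mul_of_nonneg_left hE (by positivity))
  have h3 : η * ((M : ℝ) * N) ^ 2 *
      (∑ u ∈ S ×ˢ range L, ∑ u' ∈ S ×ˢ range L, (if (u.1, u'.1) ∈ E then (1 : ℝ) else 0)) ≤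
      η * ((M : ℝ) * N) ^ 2 * ((L : ℝ) ^ 2 * (δ * (#S : ℝ) ^ 2)) :=
    mul_le_mul_of_nonneg_left h2 (by positivity)
  have h4 : η * ((M : ℝ) * N) ^ 2 * ((L : ℝ) ^ 2 * (δ * (#S : ℝ) ^ 2)) =
      η / 2 * (2 * δ * ((#S : ℝ) * (L * ((M : ℝ) * N))) ^ 2) := by ring
  have h5 := mul_le_mul_of_nonneg_left hsq (by positivity : (0 : ℝ) ≤ η / 2)
  have h6 : η / 2 * ((∑ i ∈ range L, A i) ^ 2 - (1 / L + 2 * δ) * ((#S : ℝ) * (L * ((M : ℝ) * N))) ^ 2) =
      η / 2 * (∑ i ∈ range L, A i) ^ 2 - η / 2 * (1 / (L : ℝ) * ((#S : ℝ) * (L * ((M : ℝ) * N))) ^ 2) -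
      η / 2 * (2 * δ * ((#S : ℝ) * (L * ((M : ℝ) * N))) ^ 2) := by ring
  rw [h6, h1]
  rw [h4] at h3
  have h7 : η * (((∑ i ∈ range L, A i) ^ 2 - ∑ i ∈ range L, A i ^ 2) / 2) =
      η / 2 * (∑ i ∈ range L, A i) ^ 2 - η / 2 * ∑ i ∈ range L, A i ^ 2 := by ring
  rw [h7]
  linarith

end Pool.Agent.OV
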